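import Mathlib

namespace Pool.Agent.Results.MP_d69fce_al.CentralExt

section Generic

variable {V : Type} [AddCommGroup V] [Module ℂ V]

/-- A transposed Poisson structure `m` for the bracket `br`. -/
def IsTP (br : V → V → V) (m : V →ₗ[ℂ] V →ₗ[ℂ] V) : Prop :=
  (∀ x y, m x y = m y x) ∧ (∀ x y z, m (m x y) z = m x (m y z)) ∧
    ∀ x y z, (2 : ℂ) • m z (br x y) = br (m z x) y + br x (m z y)

/-- There is a non-trivial transposed Poisson structure. -/
def HasNontrivialTP (br : V → V → V) : Prop :=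
  ∃ m : V →ₗ[ℂ] V →ₗ[ℂ] V, IsTP br m ∧ ¬ ∀ x y, m x y = 0

/-- A `1/2`-derivation for the bracket `br`. -/
def IsHalfDer (br : V → V → V) (φ : V →ₗ[ℂ] V) : Prop :=
  ∀ x y, φ (br x y) = (1 / 2 : ℂ) • (br (φ x) y + br x (φ y))

/-- There is a non-trivial (non-scalar) `1/2`-derivation. -/
def HasNontrivialHalfDer (br : V → V → V) : Prop :=
  ∃ φ : V →ₗ[ℂ] V, IsHalfDer br φ ∧ ¬ ∃ c : ℂ, ∀ x, φ x = c • x

end Generic

section Lie

variable {L : Type} [LieRing L] [LieAlgebra ℂ L]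

/-- A Lie algebra 2-cocycle with values in `ℂ`. -/
def IsCocycle (ω : L →ₗ[ℂ] L →ₗ[ℂ] ℂ) : Prop :=
  (∀ x, ω x x = 0) ∧ ∀ x y z, ω ⁅x, y⁆ z + ω ⁅y, z⁆ x + ω ⁅z, x⁆ y = 0

/-- A 2-coboundary. -/
def IsCoboundary (ω : L →ₗ[ℂ] L →ₗ[ℂ] ℂ) : Prop :=
  ∃ g : L →ₗ[ℂ] ℂ, ∀ x y, ω x y = g ⁅x, y⁆

/-- The bracket of `L` itself. -/
def ownBr (L : Type) [LieRing L] : L → L → L := fun x y => ⁅x, y⁆

/-- The bracket of the central extension `L_ω = L ⊕ ℂ c`. -/
def extBr (ω : L →ₗ[ℂ] L →ₗ[ℂ] ℂ) : L × ℂ → L × ℂ → L × ℂ :=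
  fun x y => (⁅x.1, y.1⁆, ω x.1 y.1)

end Lie

def brEx (x y : Fin 8 → ℂ) : Fin 8 → ℂ :=
  ![2 * (x 2 * y 0 - x 0 * y 2), -2 * (x 2 * y 1 - x 1 * y 2), x 0 * y 1 - x 1 * y 0, 0,
    (x 0 * y 5 - x 5 * y 0) + (x 2 * y 4 - x 4 * y 2) + (x 3 * y 4 - x 4 * y 3),
    (x 1 * y 4 - x 4 * y 1) - (x 2 * y 5 - x 5 * y 2) + (x 3 * y 5 - x 5 * y 3),
    (x 0 * y 7 - x 7 * y 0) + (x 2 * y 6 - x 6 * y 2) - (x 3 * y 6 - x 6 * y 3),
    (x 1 * y 6 - x 6 * y 1) - (x 2 * y 7 - x 7 * y 2) - (x 3 * y 7 - x 7 * y 3)]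

theorem core (a : Fin 8 → Fin 8 → ℂ)
    (key : ∀ (x y : Fin 8 → ℂ) (k : Fin 8), 2 * (∑ m, brEx x y m * a k m) =
      brEx (fun r => ∑ m, x m * a r m) y k + brEx x (fun r => ∑ m, y m * a r m) k) :
    ∀ (x : Fin 8 → ℂ) (k : Fin 8), ∑ m, x m * a k m = a 0 0 * x k := by
  have e010 := key ![1, 0, 0, 0, 0, 0, 0, 0] ![0, 1, 0, 0, 0, 0, 0, 0] 0
  simp only [brEx, Fin.sum_univ_eight, Matrix.cons_val] at e010
  have e011 := key ![1, 0, 0, 0, 0, 0, 0, 0] ![0, 1, 0, 0, 0, 0, 0, 0] 1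
  simp only [brEx, Fin.sum_univ_eight, Matrix.cons_val] at e011
  have e012 := key ![1, 0, 0, 0, 0, 0, 0, 0] ![0, 1, 0, 0, 0, 0, 0, 0] 2
  simp only [brEx, Fin.sum_univ_eight, Matrix.cons_val] at e012
  have e013 := key ![1, 0, 0, 0, 0, 0, 0, 0] ![0, 1, 0, 0, 0, 0, 0, 0] 3
  simp only [brEx, Fin.sum_univ_eight, Matrix.cons_val] at e013
  have e014 := key ![1, 0, 0, 0, 0, 0, 0, 0] ![0, 1, 0, 0, 0, 0, 0, 0] 4
  simp only [brEx, Fin.sum_univ_eight, Matrix.cons_val] at e014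
  have e015 := key ![1, 0, 0, 0, 0, 0, 0, 0] ![0, 1, 0, 0, 0, 0, 0, 0] 5
  simp only [brEx, Fin.sum_univ_eight, Matrix.cons_val] at e015
  have e016 := key ![1, 0, 0, 0, 0, 0, 0, 0] ![0, 1, 0, 0, 0, 0, 0, 0] 6
  simp only [brEx, Fin.sum_univ_eight, Matrix.cons_val] at e016
  have e017 := key ![1, 0, 0, 0, 0, 0, 0, 0] ![0, 1, 0, 0, 0, 0, 0, 0] 7
  simp only [brEx, Fin.sum_univ_eight, Matrix.cons_val] at e017
  have e020 := key ![1, 0, 0, 0, 0, 0, 0, 0] ![0, 0, 1, 0, 0, 0, 0, 0] 0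
  simp only [brEx, Fin.sum_univ_eight, Matrix.cons_val] at e020
  have e021 := key ![1, 0, 0, 0, 0, 0, 0, 0] ![0, 0, 1, 0, 0, 0, 0, 0] 1
  simp only [brEx, Fin.sum_univ_eight, Matrix.cons_val] at e021
  have e022 := key ![1, 0, 0, 0, 0, 0, 0, 0] ![0, 0, 1, 0, 0, 0, 0, 0] 2
  simp only [brEx, Fin.sum_univ_eight, Matrix.cons_val] at e022
  have e023 := key ![1, 0, 0, 0, 0, 0, 0, 0] ![0, 0, 1, 0, 0, 0, 0, 0] 3
  simp only [brEx, Fin.sum_univ_eight, Matrix.cons_val] at e023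
  have e024 := key ![1, 0, 0, 0, 0, 0, 0, 0] ![0, 0, 1, 0, 0, 0, 0, 0] 4
  simp only [brEx, Fin.sum_univ_eight, Matrix.cons_val] at e024
  have e025 := key ![1, 0, 0, 0, 0, 0, 0, 0] ![0, 0, 1, 0, 0, 0, 0, 0] 5
  simp only [brEx, Fin.sum_univ_eight, Matrix.cons_val] at e025
  have e026 := key ![1, 0, 0, 0, 0, 0, 0, 0] ![0, 0, 1, 0, 0, 0, 0, 0] 6
  simp only [brEx, Fin.sum_univ_eight, Matrix.cons_val] at e026
  have e027 := key ![1, 0, 0, 0, 0, 0, 0, 0] ![0, 0, 1, 0, 0, 0, 0, 0] 7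
  simp only [brEx, Fin.sum_univ_eight, Matrix.cons_val] at e027
  have e030 := key ![1, 0, 0, 0, 0, 0, 0, 0] ![0, 0, 0, 1, 0, 0, 0, 0] 0
  simp only [brEx, Fin.sum_univ_eight, Matrix.cons_val] at e030
  have e032 := key ![1, 0, 0, 0, 0, 0, 0, 0] ![0, 0, 0, 1, 0, 0, 0, 0] 2
  simp only [brEx, Fin.sum_univ_eight, Matrix.cons_val] at e032
  have e034 := key ![1, 0, 0, 0, 0, 0, 0, 0] ![0, 0, 0, 1, 0, 0, 0, 0] 4
  simp only [brEx, Fin.sum_univ_eight, Matrix.cons_val] at e034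
  have e036 := key ![1, 0, 0, 0, 0, 0, 0, 0] ![0, 0, 0, 1, 0, 0, 0, 0] 6
  simp only [brEx, Fin.sum_univ_eight, Matrix.cons_val] at e036
  have e040 := key ![1, 0, 0, 0, 0, 0, 0, 0] ![0, 0, 0, 0, 1, 0, 0, 0] 0
  simp only [brEx, Fin.sum_univ_eight, Matrix.cons_val] at e040
  have e042 := key ![1, 0, 0, 0, 0, 0, 0, 0] ![0, 0, 0, 0, 1, 0, 0, 0] 2
  simp only [brEx, Fin.sum_univ_eight, Matrix.cons_val] at e042
  have e044 := key ![1, 0, 0, 0, 0, 0, 0, 0] ![0, 0, 0, 0, 1, 0, 0, 0] 4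
  simp only [brEx, Fin.sum_univ_eight, Matrix.cons_val] at e044
  have e046 := key ![1, 0, 0, 0, 0, 0, 0, 0] ![0, 0, 0, 0, 1, 0, 0, 0] 6
  simp only [brEx, Fin.sum_univ_eight, Matrix.cons_val] at e046
  have e050 := key ![1, 0, 0, 0, 0, 0, 0, 0] ![0, 0, 0, 0, 0, 1, 0, 0] 0
  simp only [brEx, Fin.sum_univ_eight, Matrix.cons_val] at e050
  have e052 := key ![1, 0, 0, 0, 0, 0, 0, 0] ![0, 0, 0, 0, 0, 1, 0, 0] 2
  simp only [brEx, Fin.sum_univ_eight, Matrix.cons_val] at e052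
  have e053 := key ![1, 0, 0, 0, 0, 0, 0, 0] ![0, 0, 0, 0, 0, 1, 0, 0] 3
  simp only [brEx, Fin.sum_univ_eight, Matrix.cons_val] at e053
  have e054 := key ![1, 0, 0, 0, 0, 0, 0, 0] ![0, 0, 0, 0, 0, 1, 0, 0] 4
  simp only [brEx, Fin.sum_univ_eight, Matrix.cons_val] at e054
  have e056 := key ![1, 0, 0, 0, 0, 0, 0, 0] ![0, 0, 0, 0, 0, 1, 0, 0] 6
  simp only [brEx, Fin.sum_univ_eight, Matrix.cons_val] at e056
  have e060 := key ![1, 0, 0, 0, 0, 0, 0, 0] ![0, 0, 0, 0, 0, 0, 1, 0] 0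
  simp only [brEx, Fin.sum_univ_eight, Matrix.cons_val] at e060
  have e062 := key ![1, 0, 0, 0, 0, 0, 0, 0] ![0, 0, 0, 0, 0, 0, 1, 0] 2
  simp only [brEx, Fin.sum_univ_eight, Matrix.cons_val] at e062
  have e064 := key ![1, 0, 0, 0, 0, 0, 0, 0] ![0, 0, 0, 0, 0, 0, 1, 0] 4
  simp only [brEx, Fin.sum_univ_eight, Matrix.cons_val] at e064
  have e066 := key ![1, 0, 0, 0, 0, 0, 0, 0] ![0, 0, 0, 0, 0, 0, 1, 0] 6
  simp only [brEx, Fin.sum_univ_eight, Matrix.cons_val] at e066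
  have e070 := key ![1, 0, 0, 0, 0, 0, 0, 0] ![0, 0, 0, 0, 0, 0, 0, 1] 0
  simp only [brEx, Fin.sum_univ_eight, Matrix.cons_val] at e070
  have e072 := key ![1, 0, 0, 0, 0, 0, 0, 0] ![0, 0, 0, 0, 0, 0, 0, 1] 2
  simp only [brEx, Fin.sum_univ_eight, Matrix.cons_val] at e072
  have e073 := key ![1, 0, 0, 0, 0, 0, 0, 0] ![0, 0, 0, 0, 0, 0, 0, 1] 3
  simp only [brEx, Fin.sum_univ_eight, Matrix.cons_val] at e073
  have e074 := key ![1, 0, 0, 0, 0, 0, 0, 0] ![0, 0, 0, 0, 0, 0, 0, 1] 4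
  simp only [brEx, Fin.sum_univ_eight, Matrix.cons_val] at e074
  have e076 := key ![1, 0, 0, 0, 0, 0, 0, 0] ![0, 0, 0, 0, 0, 0, 0, 1] 6
  simp only [brEx, Fin.sum_univ_eight, Matrix.cons_val] at e076
  have e120 := key ![0, 1, 0, 0, 0, 0, 0, 0] ![0, 0, 1, 0, 0, 0, 0, 0] 0
  simp only [brEx, Fin.sum_univ_eight, Matrix.cons_val] at e120
  have e122 := key ![0, 1, 0, 0, 0, 0, 0, 0] ![0, 0, 1, 0, 0, 0, 0, 0] 2
  simp only [brEx, Fin.sum_univ_eight, Matrix.cons_val] at e122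
  have e123 := key ![0, 1, 0, 0, 0, 0, 0, 0] ![0, 0, 1, 0, 0, 0, 0, 0] 3
  simp only [brEx, Fin.sum_univ_eight, Matrix.cons_val] at e123
  have e124 := key ![0, 1, 0, 0, 0, 0, 0, 0] ![0, 0, 1, 0, 0, 0, 0, 0] 4
  simp only [brEx, Fin.sum_univ_eight, Matrix.cons_val] at e124
  have e125 := key ![0, 1, 0, 0, 0, 0, 0, 0] ![0, 0, 1, 0, 0, 0, 0, 0] 5
  simp only [brEx, Fin.sum_univ_eight, Matrix.cons_val] at e125
  have e126 := key ![0, 1, 0, 0, 0, 0, 0, 0] ![0, 0, 1, 0, 0, 0, 0, 0] 6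
  simp only [brEx, Fin.sum_univ_eight, Matrix.cons_val] at e126
  have e127 := key ![0, 1, 0, 0, 0, 0, 0, 0] ![0, 0, 1, 0, 0, 0, 0, 0] 7
  simp only [brEx, Fin.sum_univ_eight, Matrix.cons_val] at e127
  have e132 := key ![0, 1, 0, 0, 0, 0, 0, 0] ![0, 0, 0, 1, 0, 0, 0, 0] 2
  simp only [brEx, Fin.sum_univ_eight, Matrix.cons_val] at e132
  have e135 := key ![0, 1, 0, 0, 0, 0, 0, 0] ![0, 0, 0, 1, 0, 0, 0, 0] 5
  simp only [brEx, Fin.sum_univ_eight, Matrix.cons_val] at e135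
  have e137 := key ![0, 1, 0, 0, 0, 0, 0, 0] ![0, 0, 0, 1, 0, 0, 0, 0] 7
  simp only [brEx, Fin.sum_univ_eight, Matrix.cons_val] at e137
  have e140 := key ![0, 1, 0, 0, 0, 0, 0, 0] ![0, 0, 0, 0, 1, 0, 0, 0] 0
  simp only [brEx, Fin.sum_univ_eight, Matrix.cons_val] at e140
  have e142 := key ![0, 1, 0, 0, 0, 0, 0, 0] ![0, 0, 0, 0, 1, 0, 0, 0] 2
  simp only [brEx, Fin.sum_univ_eight, Matrix.cons_val] at e142
  have e143 := key ![0, 1, 0, 0, 0, 0, 0, 0] ![0, 0, 0, 0, 1, 0, 0, 0] 3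
  simp only [brEx, Fin.sum_univ_eight, Matrix.cons_val] at e143
  have e144 := key ![0, 1, 0, 0, 0, 0, 0, 0] ![0, 0, 0, 0, 1, 0, 0, 0] 4
  simp only [brEx, Fin.sum_univ_eight, Matrix.cons_val] at e144
  have e145 := key ![0, 1, 0, 0, 0, 0, 0, 0] ![0, 0, 0, 0, 1, 0, 0, 0] 5
  simp only [brEx, Fin.sum_univ_eight, Matrix.cons_val] at e145
  have e146 := key ![0, 1, 0, 0, 0, 0, 0, 0] ![0, 0, 0, 0, 1, 0, 0, 0] 6
  simp only [brEx, Fin.sum_univ_eight, Matrix.cons_val] at e146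
  have e147 := key ![0, 1, 0, 0, 0, 0, 0, 0] ![0, 0, 0, 0, 1, 0, 0, 0] 7
  simp only [brEx, Fin.sum_univ_eight, Matrix.cons_val] at e147
  have e160 := key ![0, 1, 0, 0, 0, 0, 0, 0] ![0, 0, 0, 0, 0, 0, 1, 0] 0
  simp only [brEx, Fin.sum_univ_eight, Matrix.cons_val] at e160
  have e162 := key ![0, 1, 0, 0, 0, 0, 0, 0] ![0, 0, 0, 0, 0, 0, 1, 0] 2
  simp only [brEx, Fin.sum_univ_eight, Matrix.cons_val] at e162
  have e163 := key ![0, 1, 0, 0, 0, 0, 0, 0] ![0, 0, 0, 0, 0, 0, 1, 0] 3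
  simp only [brEx, Fin.sum_univ_eight, Matrix.cons_val] at e163
  have e164 := key ![0, 1, 0, 0, 0, 0, 0, 0] ![0, 0, 0, 0, 0, 0, 1, 0] 4
  simp only [brEx, Fin.sum_univ_eight, Matrix.cons_val] at e164
  have e165 := key ![0, 1, 0, 0, 0, 0, 0, 0] ![0, 0, 0, 0, 0, 0, 1, 0] 5
  simp only [brEx, Fin.sum_univ_eight, Matrix.cons_val] at e165
  have e166 := key ![0, 1, 0, 0, 0, 0, 0, 0] ![0, 0, 0, 0, 0, 0, 1, 0] 6
  simp only [brEx, Fin.sum_univ_eight, Matrix.cons_val] at e166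
  have e167 := key ![0, 1, 0, 0, 0, 0, 0, 0] ![0, 0, 0, 0, 0, 0, 1, 0] 7
  simp only [brEx, Fin.sum_univ_eight, Matrix.cons_val] at e167
  have e344 := key ![0, 0, 0, 1, 0, 0, 0, 0] ![0, 0, 0, 0, 1, 0, 0, 0] 4
  simp only [brEx, Fin.sum_univ_eight, Matrix.cons_val] at e344
  have h01 : a 0 1 = 0 := by linear_combination (1/6) * e120
  have h02 : a 0 2 = 0 := by linear_combination (-1/3) * e122 + (2/3) * e010
  have h03 : a 0 3 = 0 := by linear_combination (1) * e132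
  have h04 : a 0 4 = 0 := by linear_combination (-1) * e142 + (1) * e050
  have h05 : a 0 5 = 0 := by linear_combination (1/2) * e140
  have h06 : a 0 6 = 0 := by linear_combination (-1) * e162 + (1) * e070
  have h07 : a 0 7 = 0 := by linear_combination (1/2) * e160
  have h10 : a 1 0 = 0 := by linear_combination (-1/6) * e021
  have h11 : a 1 1 = a 0 0 := by linear_combination (1) * e020 + (-1) * e012
  have h12 : a 1 2 = 0 := by linear_combination (1/3) * e022 + (2/3) * e011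
  have h13 : a 1 3 = 0 := by linear_combination (-1) * e032
  have h14 : a 1 4 = 0 := by linear_combination (-1) * e042
  have h15 : a 1 5 = 0 := by linear_combination (-1) * e052 + (1) * e040
  have h16 : a 1 6 = 0 := by linear_combination (-1) * e062
  have h17 : a 1 7 = 0 := by linear_combination (-1) * e072 + (1) * e060
  have h20 : a 2 0 = 0 := by linear_combination (-1/6) * e011 + (-1/3) * e022
  have h21 : a 2 1 = 0 := by linear_combination (-1/6) * e010 + (1/3) * e122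
  have h22 : a 2 2 = a 0 0 := by linear_combination (1/2) * e020
  have h23 : a 2 3 = 0 := by linear_combination (1/2) * e030
  have h24 : a 2 4 = 0 := by linear_combination (1/2) * e040
  have h25 : a 2 5 = 0 := by linear_combination (-1/2) * e050 + (1) * e142
  have h26 : a 2 6 = 0 := by linear_combination (1/2) * e060
  have h27 : a 2 7 = 0 := by linear_combination (-1/2) * e070 + (1) * e162
  have h30 : a 3 0 = 0 := by linear_combination (-1/4) * e023
  have h31 : a 3 1 = 0 := by linear_combination (1/4) * e123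
  have h32 : a 3 2 = 0 := by linear_combination (1/2) * e013
  have h33 : a 3 3 = a 0 0 := by linear_combination (-1) * e344 + (1/3) * e145 + (2/3) * e054 + (1/3) * e020 + (-1/3) * e012 + (-1/2) * e030
  have h34 : a 3 4 = 0 := by linear_combination (1/2) * e053
  have h35 : a 3 5 = 0 := by linear_combination (1/2) * e143
  have h36 : a 3 6 = 0 := by linear_combination (1/2) * e073
  have h37 : a 3 7 = 0 := by linear_combination (1/2) * e163
  have h40 : a 4 0 = 0 := by linear_combination (-2/5) * e024 + (-1/5) * e015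
  have h41 : a 4 1 = 0 := by linear_combination (1/5) * e124
  have h42 : a 4 2 = 0 := by linear_combination (1/5) * e125 + (3/5) * e014
  have h43 : a 4 3 = 0 := by linear_combination (-1) * e135 + (1/5) * e014 + (2/5) * e125
  have h44 : a 4 4 = a 0 0 := by linear_combination (1/3) * e145 + (2/3) * e054 + (1/3) * e020 + (-1/3) * e012
  have h45 : a 4 5 = 0 := by linear_combination (1/2) * e144 + (-1/12) * e010 + (1/6) * e122 + (1/8) * e123
  have h46 : a 4 6 = 0 := by linear_combination (1/3) * e165 + (2/3) * e074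
  have h47 : a 4 7 = 0 := by linear_combination (1/2) * e164
  have h50 : a 5 0 = 0 := by linear_combination (-1/5) * e025
  have h51 : a 5 1 = 0 := by linear_combination (1/5) * e014 + (2/5) * e125
  have h52 : a 5 2 = 0 := by linear_combination (3/5) * e015 + (1/5) * e024
  have h53 : a 5 3 = 0 := by linear_combination (-1) * e034 + (-2/5) * e024 + (-1/5) * e015
  have h54 : a 5 4 = 0 := by linear_combination (-1) * e044 + (1/6) * e011 + (1/3) * e022 + (1/4) * e023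
  have h55 : a 5 5 = a 0 0 := by linear_combination (1/3) * e054 + (2/3) * e145 + (2/3) * e020 + (-2/3) * e012
  have h56 : a 5 6 = 0 := by linear_combination (-1) * e064
  have h57 : a 5 7 = 0 := by linear_combination (1/3) * e074 + (2/3) * e165
  have h60 : a 6 0 = 0 := by linear_combination (-2/5) * e026 + (-1/5) * e017
  have h61 : a 6 1 = 0 := by linear_combination (1/5) * e126
  have h62 : a 6 2 = 0 := by linear_combination (1/5) * e127 + (3/5) * e016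
  have h63 : a 6 3 = 0 := by linear_combination (-1) * e137 + (-1/5) * e016 + (-2/5) * e127
  have h64 : a 6 4 = 0 := by linear_combination (1/3) * e147 + (2/3) * e056
  have h65 : a 6 5 = 0 := by linear_combination (1/2) * e146
  have h66 : a 6 6 = a 0 0 := by linear_combination (1/3) * e167 + (2/3) * e076 + (1/3) * e020 + (-1/3) * e012
  have h67 : a 6 7 = 0 := by linear_combination (1/2) * e166 + (-1/12) * e010 + (1/6) * e122 + (-1/8) * e123
  have h70 : a 7 0 = 0 := by linear_combination (-1/5) * e027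
  have h71 : a 7 1 = 0 := by linear_combination (1/5) * e016 + (2/5) * e127
  have h72 : a 7 2 = 0 := by linear_combination (3/5) * e017 + (1/5) * e026
  have h73 : a 7 3 = 0 := by linear_combination (-1) * e036 + (2/5) * e026 + (1/5) * e017
  have h74 : a 7 4 = 0 := by linear_combination (-1) * e046
  have h75 : a 7 5 = 0 := by linear_combination (1/3) * e056 + (2/3) * e147
  have h76 : a 7 6 = 0 := by linear_combination (-1) * e066 + (1/6) * e011 + (1/3) * e022 + (-1/4) * e023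
  have h77 : a 7 7 = a 0 0 := by linear_combination (1/3) * e076 + (2/3) * e167 + (2/3) * e020 + (-2/3) * e012
  intro x k
  fin_cases k <;> simp [Fin.sum_univ_eight, h01, h02, h03, h04, h05, h06, h07, h10, h11, h12, h13, h14, h15, h16, h17, h20, h21, h22, h23, h24, h25, h26, h27, h30, h31, h32, h33, h34, h35, h36, h37, h40, h41, h42, h43, h44, h45, h46, h47, h50, h51, h52, h53, h54, h55, h56, h57, h60, h61, h62, h63, h64, h65, h66, h67, h70, h71, h72, h73, h74, h75, h76, h77] <;> ring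

def Ex : Type := Fin 8 → ℂ

noncomputable instance : AddCommGroup Ex := inferInstanceAs (AddCommGroup (Fin 8 → ℂ))
noncomputable instance : Module ℂ Ex := inferInstanceAs (Module ℂ (Fin 8 → ℂ))

theorem add_ap (x y : Ex) (i : Fin 8) : (x + y) i = x i + y i := rfl
theorem smul_ap (c : ℂ) (x : Ex) (i : Fin 8) : (c • x) i = c * x i := rfl
theorem zero_ap (i : Fin 8) : (0 : Ex) i = 0 := rfl

noncomputable instance : LieRing Ex :=
  { (inferInstance : AddCommGroup Ex) with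
    bracket := brEx
    add_lie := by
      intro x y z; funext i
      show brEx (x + y) z i = brEx x z i + brEx y z i
      fin_cases i <;> simp [brEx, add_ap] <;> ring
    lie_add := by
      intro x y z; funext i
      show brEx x (y + z) i = brEx x y i + brEx x z i
      fin_cases i <;> simp [brEx, add_ap] <;> ring
    lie_self := by
      intro x; funext i
      show brEx x x i = 0
      fin_cases i <;> simp [brEx] <;> ring
    leibniz_lie := by
      intro x y z; funext i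
      show brEx x (brEx y z) i = brEx (brEx x y) z i + brEx y (brEx x z) i
      fin_cases i <;> simp [brEx] <;> ring }

noncomputable instance : LieAlgebra ℂ Ex :=
  { (inferInstance : Module ℂ Ex) with
    lie_smul := by
      intro c x y; funext i
      show brEx x (c • y) i = c * brEx x y i
      fin_cases i <;> simp [brEx, smul_ap] <;> ring }

theorem br_ap (x y : Ex) : ⁅x, y⁆ = (brEx x y : Ex) := rfl

noncomputable def om : Ex →ₗ[ℂ] Ex →ₗ[ℂ] ℂ :=
  LinearMap.mk₂ ℂ (fun x y => x 4 * y 7 - x 7 * y 4 - (x 5 * y 6 - x 6 * y 5))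
    (by intro a b c; simp only [add_ap]; ring)
    (by intro a b c; simp only [smul_ap, smul_eq_mul]; ring)
    (by intro a b c; simp only [add_ap]; ring)
    (by intro a b c; simp only [smul_ap, smul_eq_mul]; ring)

theorem om_ap (x y : Ex) : om x y = x 4 * y 7 - x 7 * y 4 - (x 5 * y 6 - x 6 * y 5) := rfl

theorem half_triv (φ : Ex →ₗ[ℂ] Ex) (h : IsHalfDer (ownBr Ex) φ) : ∃ c : ℂ, ∀ x, φ x = c • x := by
  let ψ : (Fin 8 → ℂ) →ₗ[ℂ] (Fin 8 → ℂ) := φ
  let a : Fin 8 → Fin 8 → ℂ := fun k m => ψ (Pi.single m 1) k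
  have ha : ∀ x : Fin 8 → ℂ, ψ x = fun k => ∑ m, x m * a k m := by
    intro x
    funext k
    conv_lhs => rw [pi_eq_sum_univ' x]
    simp [a, Finset.sum_apply]
  refine ⟨a 0 0, fun x => ?_⟩
  funext k
  have := core a (by
    intro x y k
    have h1 : ψ (brEx x y) k = (1 / 2 : ℂ) * (brEx (ψ x) y k + brEx x (ψ y) k) :=
      congrFun (h x y) k
    rw [ha (brEx x y), ha x, ha y] at h1
    linear_combination 2 * h1) x k
  exact (congrFun (ha x) k).trans this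

noncomputable def tc : Ex × ℂ →ₗ[ℂ] ℂ where
  toFun x := x.1 3
  map_add' _ _ := rfl
  map_smul' _ _ := rfl

theorem tc_br (x y : Ex × ℂ) : tc (extBr om x y) = 0 := rfl

theorem ext_c (c : ℂ) (y : Ex × ℂ) :
    extBr om ((0 : Ex), c) y = 0 ∧ extBr om y ((0 : Ex), c) = 0 := by
  constructor <;> simp [extBr]

def v3 : Ex := ![0, 0, 0, 1, 0, 0, 0, 0]
def v0 : Ex := ![1, 0, 0, 0, 0, 0, 0, 0]

theorem result : ∃ (L : Type) (_ : LieRing L) (_ : LieAlgebra ℂ L) (ω : L →ₗ[ℂ] L →ₗ[ℂ] ℂ),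
    IsCocycle ω ∧ ¬ IsCoboundary ω ∧
    (¬ HasNontrivialTP (ownBr L) ∧ HasNontrivialTP (extBr ω)) ∧
    (¬ HasNontrivialHalfDer (ownBr L) ∧ HasNontrivialHalfDer (extBr ω)) := by
  refine ⟨Ex, inferInstance, inferInstance, om, ⟨?_, ?_⟩, ?_, ⟨?_, ?_⟩, ?_, ?_⟩
  · intro x; rw [om_ap]; ring
  · intro x y z; simp [om_ap, br_ap, brEx]; ring
  · rintro ⟨g, hg⟩
    have h := hg (![0, 0, 0, 0, 1, 0, 0, 0] : Fin 8 → ℂ) (![0, 0, 0, 0, 0, 0, 0, 1] : Fin 8 → ℂ)
    have h0 : (brEx ![0, 0, 0, 0, 1, 0, 0, 0] ![0, 0, 0, 0, 0, 0, 0, 1] : Ex) = (0 : Ex) := by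
      funext i; fin_cases i <;> simp [brEx, zero_ap]
    rw [br_ap, h0, map_zero, om_ap] at h
    simp at h
  · rintro ⟨m, ⟨hc, -, ht⟩, hn⟩
    apply hn
    have hz : ∀ z, ∃ c : ℂ, ∀ x, m z x = c • x := by
      intro z
      apply half_triv
      intro x y
      rw [← ht, smul_smul]; norm_num
    intro z x
    obtain ⟨c, hc1⟩ := hz z
    obtain ⟨c0, h0⟩ := hz v0
    obtain ⟨c3, h3⟩ := hz v3
    have a1 : c • v0 = c0 • z := by rw [← hc1, hc, h0]
    have a2 : c • v3 = c3 • z := by rw [← hc1, hc, h3]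
    have b1 := congrFun a1 0
    have b2 := congrFun a1 3
    have b3 := congrFun a2 0
    have b4 := congrFun a2 3
    simp only [smul_ap, v0, v3, Matrix.cons_val] at b1 b2 b3 b4
    have : c * c = 0 := by linear_combination c * b1 + c0 * z 0 * b4 - c0 * z 3 * b3 + c * c0 * z 3 * 0 + 0 * b2
    rw [hc1, mul_self_eq_zero.1 this, zero_smul]
  · refine ⟨LinearMap.mk₂ ℂ (fun x y => ((0 : Ex), tc x * tc y)) ?_ ?_ ?_ ?_, ⟨?_, ?_, ?_⟩, ?_⟩
    · intro a b c; simp [add_mul]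
    · intro a b c; simp [mul_assoc]
    · intro a b c; simp [mul_add]
    · intro a b c; simp [mul_left_comm]
    · intro x y; simp [mul_comm]
    · intro x y z
      have : ∀ c : ℂ, tc ((0 : Ex), c) = 0 := fun _ => rfl
      simp [this]
    · intro x y z
      simp [tc_br, (ext_c _ _).1, (ext_c _ _).2]
    · intro h
      have := congrArg Prod.snd (h (v3, 0) (v3, 0))
      have h1 : tc (v3, (0 : ℂ)) = 1 := rfl
      simp [h1] at this
  · rintro ⟨φ, h, hn⟩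
    exact hn (half_triv φ h)
  · refine ⟨(LinearMap.inr ℂ Ex ℂ).comp tc, ?_, ?_⟩
    · intro x y
      simp [tc_br, (ext_c _ _).1, (ext_c _ _).2]
    · rintro ⟨c, hc⟩
      have := congrArg Prod.snd (hc (v3, 0))
      have h1 : tc (v3, (0 : ℂ)) = 1 := rfl
      simp [h1] at this

end Pool.Agent.Results.MP_d69fce_al.CentralExt
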